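import Pool.Agent.H110R3.Urn.Stmts

/-! # H110-URN TaskA3: deterministic facts on one step and on the region (helper471) -/

namespace Pool.Agent.H110R3.Urn.A3

open Finset

variable {m : ℕ} (G : SimpleGraph (Fin m)) [DecidableRel G.Adj]

/-- the endpoint of `e` chosen by `s` -/
def tgt (s : Ch G) (e : Ed G) : Fin m := if s e = true then e.1.1 else e.1.2

lemma Y_eq (s : Ch G) (i : Fin m) :
    Y G s i = (univ.filter fun e : Ed G => tgt G s e = i).card := by
  unfold Y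
  congr 1
  apply filter_congr
  intro e _
  unfold tgt
  cases s e <;> simp

lemma sum_Y (s : Ch G) : ∑ i, Y G s i = NE G := by
  simp_rw [Y_eq]
  rw [NE, ← card_univ]
  exact (card_eq_sum_card_fiberwise (f := tgt G s) (t := univ) (fun e _ => mem_univ _)).symm

lemma Y_le (s : Ch G) (i : Fin m) : Y G s i ≤ NE G := by
  rw [Y_eq, NE, ← card_univ]
  exact card_filter_le _ _

lemma tot_stp (b : Fin m → ℕ) (s : Ch G) : tot (stp G b s) = tot b + NE G := by
  unfold tot stp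
  push_cast
  rw [sum_add_distrib]
  congr 1
  exact_mod_cast sum_Y G s

lemma tot_pos (hm : 0 < m) {b : Fin m → ℕ} (hb : ∀ i, 1 ≤ b i) : 0 < tot b := by
  unfold tot
  haveI : Nonempty (Fin m) := ⟨⟨0, hm⟩⟩
  exact sum_pos (fun i _ => by exact_mod_cast hb i) univ_nonempty

lemma X_stp (hm : 0 < m) (b : Fin m → ℕ) (s : Ch G) (hb : ∀ i, 1 ≤ b i) (i : Fin m) :
    X (stp G b s) i - X b i = ((Y G s i : ℝ) - NE G * X b i) / (tot b + NE G) := by
  have h := tot_pos hm hb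
  have hN : (0 : ℝ) ≤ NE G := Nat.cast_nonneg _
  have h2 : 0 < tot b + NE G := by linarith
  unfold X
  rw [tot_stp]
  have h3 : ((stp G b s i : ℕ) : ℝ) = b i + Y G s i := by
    unfold stp
    push_cast
    rfl
  rw [h3]
  field_simp
  ring

/-- an adjacent pair has an edge in `Ed G` -/
lemma exists_edge {i j : Fin m} (h : G.Adj i j) :
    ∃ e : Ed G, (e.1.1 = i ∧ e.1.2 = j) ∨ (e.1.1 = j ∧ e.1.2 = i) := by
  rcases lt_or_gt_of_ne h.ne with hij | hij
  · exact ⟨⟨(i, j), hij, h⟩, Or.inl ⟨rfl, rfl⟩⟩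
  · exact ⟨⟨(j, i), hij, h.symm⟩, Or.inr ⟨rfl, rfl⟩⟩

lemma NE_pos {i j : Fin m} (h : G.Adj i j) : 1 ≤ NE G := by
  obtain ⟨e, _⟩ := exists_edge G h
  exact Fintype.card_pos_iff.2 ⟨e⟩

lemma Y_add {i j : Fin m} (h : G.Adj i j) (s : Ch G) : 1 ≤ Y G s i + Y G s j := by
  obtain ⟨e, he⟩ := exists_edge G h
  have key : tgt G s e = i ∨ tgt G s e = j := by
    unfold tgt
    rcases he with ⟨h1, h2⟩ | ⟨h1, h2⟩ <;> split_ifs <;> simp [h1, h2]
  rw [Y_eq, Y_eq]
  rcases key with hk | hk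
  · have : 0 < (univ.filter fun e : Ed G => tgt G s e = i).card :=
      card_pos.2 ⟨e, mem_filter.2 ⟨mem_univ _, hk⟩⟩
    omega
  · have : 0 < (univ.filter fun e : Ed G => tgt G s e = j).card :=
      card_pos.2 ⟨e, mem_filter.2 ⟨mem_univ _, hk⟩⟩
    omega

lemma InR_stp (b : Fin m → ℕ) (s : Ch G) (hb : InR G b) : InR G (stp G b s) := by
  refine ⟨fun i => (hb.1 i).trans (Nat.le_add_right _ _), fun i j hij => ?_⟩
  have h1 := hb.2 i j hij
  have h2 : (1 : ℝ) ≤ (Y G s i : ℝ) + Y G s j := by exact_mod_cast Y_add G hij s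
  have hN : (0 : ℝ) ≤ NE G := Nat.cast_nonneg _
  rw [tot_stp]
  have h3 : ∀ i, ((stp G b s i : ℕ) : ℝ) = b i + Y G s i := by
    intro i
    unfold stp
    push_cast
    rfl
  rw [h3, h3]
  nlinarith

lemma X_mem (hm : 0 < m) (b : Fin m → ℕ) (hb : InR G b) : X b ∈ Rg G := by
  have h := tot_pos hm hb.1
  refine ⟨fun i => div_nonneg (Nat.cast_nonneg _) h.le, ?_, fun i j hij => ?_⟩
  · unfold X
    rw [← sum_div]
    exact div_self h.ne'
  · have hN : (1 : ℝ) ≤ NE G := by exact_mod_cast NE_pos G hij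
    unfold X
    rw [← add_div, div_le_div_iff₀ (by positivity) h]
    have := hb.2 i j hij
    linarith

lemma st_tot (b0 : Fin m → ℕ) (s : ℕ → Ch G) (n : ℕ) :
    tot (st G b0 s n) = tot b0 + n * NE G := by
  induction n with
  | zero => simp [st]
  | succ n ih =>
    rw [st, tot_stp, ih]
    push_cast
    ring

lemma st_pos (b0 : Fin m → ℕ) (s : ℕ → Ch G) (hb : ∀ i, 1 ≤ b0 i) (n : ℕ) (i : Fin m) :
    1 ≤ st G b0 s n i := by
  induction n with
  | zero => exact hb i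
  | succ n ih => exact ih.trans (Nat.le_add_right _ _)

lemma st_add (b0 : Fin m → ℕ) (s : ℕ → Ch G) {i j : Fin m} (h : G.Adj i j) (n : ℕ) :
    n ≤ st G b0 s n i + st G b0 s n j := by
  induction n with
  | zero => exact Nat.zero_le _
  | succ n ih =>
    have h1 := Y_add G h (s n)
    show n + 1 ≤ (st G b0 s n i + Y G (s n) i) + (st G b0 s n j + Y G (s n) j)
    omega

theorem t : TaskA3 := by
  intro m G _ hm
  refine ⟨sum_Y G, Y_le G, tot_stp G, fun b s hb i => X_stp G hm b s hb i, InR_stp G,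
    X_mem G hm, fun b0 s hb => ⟨st_tot G b0 s, st_pos G b0 s hb, fun n hn => ?_⟩⟩
  refine ⟨st_pos G b0 s hb n, fun i j hij => ?_⟩
  rw [st_tot]
  have h1 : (1 : ℝ) ≤ NE G := by exact_mod_cast NE_pos G hij
  have h2 : (n : ℝ) ≤ (st G b0 s n i : ℝ) + st G b0 s n j := by
    exact_mod_cast st_add G b0 s hij n
  have h3 : (0 : ℝ) ≤ n := Nat.cast_nonneg _
  nlinarith

end Pool.Agent.H110R3.Urn.A3
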